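import Pool.Agent.N458.AH.Moment

/-!
# From a Hadamard matrix of order `n + k` to a nearly orthogonal sign matrix of order `n`
-/

set_option autoImplicit false

namespace Pool.Agent.N458.AH

open Matrix Finset
open scoped Matrix.Norms.L2Operator

variable {ι ι' : Type*} [Fintype ι] [DecidableEq ι] [Fintype ι'] [DecidableEq ι']

theorem norm_ev_le (M : Matrix ι ι' ℝ) (x : EuclideanSpace ℝ ι') :
    ‖toEuclideanLin M x‖ ≤ ‖M‖ * ‖x‖ :=
  ((toEuclideanLin (n := ι') (m := ι) (𝕜 := ℝ)).trans LinearMap.toContinuousLinearMap M).le_opNorm x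

theorem norm_sq_ev (M : Matrix ι ι' ℝ) (x : EuclideanSpace ℝ ι') :
    ‖toEuclideanLin M x‖ ^ 2 = x.ofLp ⬝ᵥ ((Mᵀ * M) *ᵥ x.ofLp) := by
  rw [EuclideanSpace.norm_sq_eq, ← Matrix.mulVec_mulVec, Matrix.dotProduct_mulVec,
    Matrix.vecMul_transpose]
  exact Finset.sum_congr rfl (fun i _ => by rw [Real.norm_eq_abs, sq_abs, sq]; rfl)

theorem norm_sq_eq_dot (x : EuclideanSpace ℝ ι) : ‖x‖ ^ 2 = x.ofLp ⬝ᵥ x.ofLp := by
  rw [EuclideanSpace.norm_sq_eq]
  exact Finset.sum_congr rfl (fun i _ => by rw [Real.norm_eq_abs, sq_abs, sq])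

theorem abs_quad_le (Δ : Matrix ι ι ℝ) (x : EuclideanSpace ℝ ι) :
    |x.ofLp ⬝ᵥ (Δ *ᵥ x.ofLp)| ≤ ‖Δ‖ * ‖x‖ ^ 2 := by
  rw [← Matrix.inner_toEuclideanCLM]
  refine (abs_real_inner_le_norm _ _).trans ?_
  have h := norm_ev_le Δ x
  have h2 : ‖toEuclideanCLM (n := ι) (𝕜 := ℝ) Δ x‖ = ‖toEuclideanLin Δ x‖ := rfl
  rw [h2]
  nlinarith [norm_nonneg x]

theorem norm_le_of_ev (M : Matrix ι ι' ℝ) {c : ℝ} (hc : 0 ≤ c)
    (h : ∀ x : EuclideanSpace ℝ ι', ‖toEuclideanLin M x‖ ≤ c * ‖x‖) : ‖M‖ ≤ c := by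
  rw [Matrix.l2_opNorm_def]
  exact ContinuousLinearMap.opNorm_le_bound _ hc h

/-- a matrix with at most one entry in each row and column -/
theorem norm_shift_le {G : Type*} [Fintype G] [DecidableEq G] [AddCommGroup G] (g : G)
    (u : Matrix G G ℝ) {a : ℝ} (ha : 0 ≤ a) (hu : ∀ i j, |u i j| ≤ a) :
    ‖(Matrix.of fun i j => if j - i = g then u i j else 0 : Matrix G G ℝ)‖ ≤ a := by
  set M : Matrix G G ℝ := Matrix.of fun i j => if j - i = g then u i j else 0 with hM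
  have h1 : M * Mᵀ = Matrix.diagonal (fun i => u i (i + g) ^ 2) := by
    ext i i'
    rw [Matrix.mul_apply, Matrix.diagonal_apply]
    have h2 : ∀ j, M i j * Mᵀ j i' = if j = i + g then (u i j * (if j - i' = g then u i' j else 0))
        else 0 := by
      intro j
      simp only [hM, Matrix.transpose_apply, Matrix.of_apply]
      by_cases hj : j = i + g
      · subst hj
        simp
      · have : ¬ (j - i = g) := fun h => hj (by rw [← h]; abel)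
        simp [hj, this]
    rw [Finset.sum_congr rfl (fun j _ => h2 j), Finset.sum_ite_eq' Finset.univ (i + g)]
    simp only [Finset.mem_univ, if_true]
    by_cases hii : i = i'
    · subst hii
      simp [sq]
    · have : ¬ (i + g - i' = g) := fun h => hii (by
        have h3 : i + g - i' + i' - g = g + i' - g := by rw [h]
        have h4 : i + g - i' + i' - g = i := by abel
        have h5 : g + i' - g = i' := by abel
        rw [h4, h5] at h3
        exact h3)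
      simp [hii, this]
  have h2 : ‖M‖ * ‖M‖ ≤ a * a := by
    rw [← norm_mul_transpose, h1, Matrix.l2_opNorm_diagonal]
    refine (pi_norm_le_iff_of_nonneg (by positivity)).2 (fun i => ?_)
    rw [Real.norm_eq_abs, abs_pow, sq]
    exact mul_le_mul (hu _ _) (hu _ _) (abs_nonneg _) ha
  nlinarith [norm_nonneg M]

theorem near {F : Matrix ι ι ℝ} {N δ : ℝ} (hN : 0 < N) (h : ‖F * Fᵀ - N • (1 : Matrix ι ι ℝ)‖ ≤ δ)
    (x : EuclideanSpace ℝ ι) :
    |‖toEuclideanLin Fᵀ x‖ - Real.sqrt N * ‖x‖| ≤ δ / Real.sqrt N * ‖x‖ := by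
  have hs : 0 < Real.sqrt N := Real.sqrt_pos.2 hN
  have h1 : ‖toEuclideanLin Fᵀ x‖ ^ 2 = N * ‖x‖ ^ 2 +
      x.ofLp ⬝ᵥ ((F * Fᵀ - N • (1 : Matrix ι ι ℝ)) *ᵥ x.ofLp) := by
    rw [norm_sq_ev, Matrix.transpose_transpose, Matrix.sub_mulVec, Matrix.smul_mulVec,
      Matrix.one_mulVec, dotProduct_sub, dotProduct_smul, norm_sq_eq_dot, smul_eq_mul]
    ring
  have h2 := abs_quad_le (F * Fᵀ - N • (1 : Matrix ι ι ℝ)) x
  have h3 : |‖toEuclideanLin Fᵀ x‖ ^ 2 - (Real.sqrt N * ‖x‖) ^ 2| ≤ δ * ‖x‖ ^ 2 := by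
    rw [mul_pow, Real.sq_sqrt hN.le, h1]
    have : N * ‖x‖ ^ 2 + x.ofLp ⬝ᵥ ((F * Fᵀ - N • (1 : Matrix ι ι ℝ)) *ᵥ x.ofLp) - N * ‖x‖ ^ 2 =
      x.ofLp ⬝ᵥ ((F * Fᵀ - N • (1 : Matrix ι ι ℝ)) *ᵥ x.ofLp) := by ring
    rw [this]
    exact h2.trans (mul_le_mul_of_nonneg_right h (sq_nonneg _))
  rcases eq_or_lt_of_le (norm_nonneg x) with hx | hx
  · have hx0 : x = 0 := norm_eq_zero.1 hx.symm
    subst hx0
    simp
  · have h4 : |‖toEuclideanLin Fᵀ x‖ ^ 2 - (Real.sqrt N * ‖x‖) ^ 2| =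
        |‖toEuclideanLin Fᵀ x‖ - Real.sqrt N * ‖x‖| * (‖toEuclideanLin Fᵀ x‖ + Real.sqrt N * ‖x‖) := by
      have h5 : 0 ≤ ‖toEuclideanLin Fᵀ x‖ + Real.sqrt N * ‖x‖ := by positivity
      rw [sq_sub_sq, abs_mul, abs_of_nonneg h5, mul_comm]
    rw [h4] at h3
    have h6 : |‖toEuclideanLin Fᵀ x‖ - Real.sqrt N * ‖x‖| * (Real.sqrt N * ‖x‖) ≤ δ * ‖x‖ ^ 2 := by
      refine le_trans (mul_le_mul_of_nonneg_left ?_ (abs_nonneg _)) h3
      linarith [norm_nonneg (toEuclideanLin Fᵀ x)]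
    have h7 : |‖toEuclideanLin Fᵀ x‖ - Real.sqrt N * ‖x‖| * Real.sqrt N ≤ δ * ‖x‖ := by
      have h8 : (|‖toEuclideanLin Fᵀ x‖ - Real.sqrt N * ‖x‖| * Real.sqrt N) * ‖x‖ ≤
          (δ * ‖x‖) * ‖x‖ := by
        calc _ = |‖toEuclideanLin Fᵀ x‖ - Real.sqrt N * ‖x‖| * (Real.sqrt N * ‖x‖) := by ring
          _ ≤ δ * ‖x‖ ^ 2 := h6
          _ = _ := by ring
      exact le_of_mul_le_mul_right h8 hx
    rw [div_mul_eq_mul_div, le_div_iff₀ hs]
    exact h7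

section Blocks

variable {G K : Type*} [Fintype G] [DecidableEq G] [Fintype K] [DecidableEq K]

theorem norm_le_sqrt {A : Matrix G G ℝ} {B : Matrix G K ℝ} {N : ℝ} (hN : 0 ≤ N)
    (h1 : A * Aᵀ + B * Bᵀ = N • (1 : Matrix G G ℝ)) : ‖B‖ ≤ Real.sqrt N := by
  rw [← norm_transpose']
  refine norm_le_of_ev _ (Real.sqrt_nonneg _) (fun x => ?_)
  have h2 : ‖toEuclideanLin Aᵀ x‖ ^ 2 + ‖toEuclideanLin Bᵀ x‖ ^ 2 = N * ‖x‖ ^ 2 := by
    rw [norm_sq_ev, norm_sq_ev, Matrix.transpose_transpose, Matrix.transpose_transpose,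
      ← dotProduct_add, ← Matrix.add_mulVec, h1, Matrix.smul_mulVec, Matrix.one_mulVec,
      dotProduct_smul, norm_sq_eq_dot, smul_eq_mul]
  have h3 : ‖toEuclideanLin Bᵀ x‖ ^ 2 ≤ (Real.sqrt N * ‖x‖) ^ 2 := by
    rw [mul_pow, Real.sq_sqrt hN]
    nlinarith [sq_nonneg ‖toEuclideanLin Aᵀ x‖]
  exact (sq_le_sq₀ (norm_nonneg _) (by positivity)).1 h3

theorem gram {A : Matrix G G ℝ} {B : Matrix G K ℝ} {D : Matrix K G ℝ} {C : Matrix K K ℝ} {N : ℝ}
    (h1 : A * Aᵀ + B * Bᵀ = N • (1 : Matrix G G ℝ)) (h2 : A * Dᵀ + B * Cᵀ = 0)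
    (h3 : D * Dᵀ + C * Cᵀ = N • (1 : Matrix K K ℝ)) (a θ : ℝ) :
    (a • A + θ • (B * D)) * (a • A + θ • (B * D))ᵀ - N • (1 : Matrix G G ℝ) =
      ((a ^ 2 - 1) * N) • (1 : Matrix G G ℝ) + (θ ^ 2 * N - a ^ 2) • (B * Bᵀ) -
        (a * θ) • (B * (C * Bᵀ)) - (a * θ) • (B * (Cᵀ * Bᵀ)) - (θ ^ 2) • (B * (C * (Cᵀ * Bᵀ))) := by
  have e1 : A * Aᵀ = N • (1 : Matrix G G ℝ) - B * Bᵀ := eq_sub_of_add_eq h1
  have e2 : A * Dᵀ = -(B * Cᵀ) := eq_neg_of_add_eq_zero_left h2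
  have e2' : D * Aᵀ = -(C * Bᵀ) := by
    have := congrArg Matrix.transpose e2
    rw [Matrix.transpose_mul, Matrix.transpose_transpose, Matrix.transpose_neg,
      Matrix.transpose_mul, Matrix.transpose_transpose] at this
    exact this
  have e3 : D * Dᵀ = N • (1 : Matrix K K ℝ) - C * Cᵀ := eq_sub_of_add_eq h3
  have e4 : A * (Dᵀ * Bᵀ) = -(B * (Cᵀ * Bᵀ)) := by
    rw [← Matrix.mul_assoc, e2, Matrix.neg_mul, Matrix.mul_assoc]
  have e5 : B * (D * Aᵀ) = -(B * (C * Bᵀ)) := by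
    rw [e2', Matrix.mul_neg]
  have e6 : B * (D * (Dᵀ * Bᵀ)) = N • (B * Bᵀ) - B * (C * (Cᵀ * Bᵀ)) := by
    rw [← Matrix.mul_assoc D, e3, Matrix.sub_mul, Matrix.smul_mul, Matrix.one_mul, Matrix.mul_sub,
      Matrix.mul_smul, Matrix.mul_assoc C]
  rw [Matrix.transpose_add, Matrix.transpose_smul, Matrix.transpose_smul, Matrix.transpose_mul,
    Matrix.add_mul, Matrix.mul_add, Matrix.mul_add]
  simp only [Matrix.smul_mul, Matrix.mul_smul, smul_smul, Matrix.mul_assoc]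
  rw [e1, e4, e5, e6]
  module

theorem norm_le_card {C : Matrix K K ℝ} (hC : ∀ i j, |C i j| ≤ 1) :
    ‖C‖ ≤ Fintype.card K := by
  have h := sq_norm_le_trace C
  have htr : (C * Cᵀ).trace = ∑ i, ∑ j, C i j ^ 2 := by
    simp only [Matrix.trace, Matrix.diag_apply, Matrix.mul_apply, Matrix.transpose_apply, sq]
  have h2 : ∑ i, ∑ j, C i j ^ 2 ≤ (Fintype.card K : ℝ) ^ 2 := by
    calc ∑ i, ∑ j, C i j ^ 2 ≤ ∑ _i : K, ∑ _j : K, (1 : ℝ) := by
          refine Finset.sum_le_sum (fun i _ => Finset.sum_le_sum (fun j _ => ?_))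
          rw [← sq_abs]
          exact pow_le_one₀ (abs_nonneg _) (hC i j)
      _ = (Fintype.card K : ℝ) ^ 2 := by
          simp [sq]
  rw [htr] at h
  exact (sq_le_sq₀ (norm_nonneg _) (by positivity)).1 (h.trans h2)

theorem coef {N L k θ a : ℝ} (hN : 1 ≤ N) (hk0 : 0 ≤ k) (hL1 : Real.sqrt N ≤ L) (hkL : k ≤ L)
    (hL2 : L ≤ Real.sqrt N + 1 + k) (hθ : θ = 1 / L) (ha : a = 1 - k / L) :
    0 < θ ∧ 0 ≤ a ∧ a ≤ 1 ∧ N * θ ≤ Real.sqrt N ∧ N * θ ^ 2 ≤ 1 ∧ |(a ^ 2 - 1) * N| ≤ 2 * (k * θ) * N ∧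
      |θ ^ 2 * N - a ^ 2| ≤ (4 * k + 2) * θ := by
  have hN0 : 0 < N := by linarith
  have hs : 0 < Real.sqrt N := Real.sqrt_pos.2 hN0
  have hss : Real.sqrt N * Real.sqrt N = N := Real.mul_self_sqrt hN0.le
  have hL0 : 0 < L := lt_of_lt_of_le hs hL1
  have hθ0 : 0 < θ := by rw [hθ]; positivity
  have hkθ : k / L = k * θ := by rw [hθ]; ring
  have hkθ1 : k * θ ≤ 1 := by
    rw [← hkθ, div_le_one hL0]
    exact hkL
  have hkθ0 : 0 ≤ k * θ := by positivity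
  rw [hkθ] at ha
  have ha0 : 0 ≤ a := by rw [ha]; linarith
  have ha1 : a ≤ 1 := by rw [ha]; linarith
  have hsθ : Real.sqrt N * θ ≤ 1 := by
    rw [hθ, mul_one_div, div_le_one hL0]
    exact hL1
  have hNθ : N * θ ≤ Real.sqrt N := by
    calc N * θ = Real.sqrt N * (Real.sqrt N * θ) := by rw [← mul_assoc, hss]
      _ ≤ Real.sqrt N * 1 := mul_le_mul_of_nonneg_left hsθ hs.le
      _ = _ := mul_one _
  have hsq : θ ^ 2 * N = (Real.sqrt N * θ) * (Real.sqrt N * θ) := by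
    calc θ ^ 2 * N = θ ^ 2 * (Real.sqrt N * Real.sqrt N) := by rw [hss]
      _ = _ := by ring
  have hNθ2 : N * θ ^ 2 ≤ 1 := by
    rw [mul_comm, hsq]
    calc _ ≤ 1 * 1 := mul_le_mul hsθ hsθ (by positivity) zero_le_one
      _ = 1 := one_mul 1
  have h7 : 1 - a ^ 2 ≤ 2 * (k * θ) := by rw [ha]; nlinarith
  have h8 : 0 ≤ 1 - a ^ 2 := by nlinarith
  refine ⟨hθ0, ha0, ha1, hNθ, hNθ2, ?_, ?_⟩
  · rw [abs_mul, abs_of_pos hN0]
    refine mul_le_mul_of_nonneg_right ?_ hN0.le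
    rw [abs_le]
    constructor <;> linarith
  · have h6 : 1 - θ ^ 2 * N ≤ 2 * ((k + 1) * θ) := by
      have h7 : 1 - Real.sqrt N * θ ≤ (k + 1) * θ := by
        have h8 : L * θ = 1 := by rw [hθ]; field_simp
        nlinarith
      have h10 : 0 ≤ Real.sqrt N * θ := by positivity
      rw [hsq]
      nlinarith
    rw [abs_le]
    constructor
    · nlinarith
    · nlinarith

theorem n3 {B : Matrix G K ℝ} {C' : Matrix K K ℝ} {N k c θ : ℝ} (hN : 0 ≤ N) (hk0 : 0 ≤ k)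
    (hB : ‖B‖ ≤ Real.sqrt N) (hC' : ‖C'‖ ≤ k) (hc : |c| ≤ θ) :
    ‖c • (B * (C' * Bᵀ))‖ ≤ k * θ * N := by
  have hss : Real.sqrt N * Real.sqrt N = N := Real.mul_self_sqrt hN
  have hs : 0 ≤ Real.sqrt N := Real.sqrt_nonneg _
  have hBt : ‖Bᵀ‖ ≤ Real.sqrt N := by rw [norm_transpose']; exact hB
  rw [norm_smul, Real.norm_eq_abs]
  have h6 : ‖B * (C' * Bᵀ)‖ ≤ Real.sqrt N * (k * Real.sqrt N) := by
    refine (Matrix.l2_opNorm_mul _ _).trans (mul_le_mul hB ?_ (norm_nonneg _) hs)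
    exact (Matrix.l2_opNorm_mul _ _).trans (mul_le_mul hC' hBt (norm_nonneg _) hk0)
  calc _ ≤ θ * (Real.sqrt N * (k * Real.sqrt N)) :=
        mul_le_mul hc h6 (norm_nonneg _) ((abs_nonneg _).trans hc)
    _ = k * θ * (Real.sqrt N * Real.sqrt N) := by ring
    _ = _ := by rw [hss]

theorem gram_bound {A : Matrix G G ℝ} {B : Matrix G K ℝ} {D : Matrix K G ℝ} {C : Matrix K K ℝ}
    {N : ℝ} (hN : 1 ≤ N)
    (h1 : A * Aᵀ + B * Bᵀ = N • (1 : Matrix G G ℝ)) (h2 : A * Dᵀ + B * Cᵀ = 0)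
    (h3 : D * Dᵀ + C * Cᵀ = N • (1 : Matrix K K ℝ)) (hC : ∀ i j, |C i j| ≤ 1)
    {L k : ℝ} (hk : k = Fintype.card K) (hL1 : Real.sqrt N ≤ L) (hkL : k ≤ L)
    (hL2 : L ≤ Real.sqrt N + 1 + k) :
    ‖((1 - k / L) • A + (1 / L) • (B * D)) * ((1 - k / L) • A + (1 / L) • (B * D))ᵀ -
      N • (1 : Matrix G G ℝ)‖ ≤ (8 * k + 2) * Real.sqrt N + k ^ 2 := by
  have hN0 : 0 ≤ N := by linarith
  have hs : 0 ≤ Real.sqrt N := Real.sqrt_nonneg _
  have hss : Real.sqrt N * Real.sqrt N = N := Real.mul_self_sqrt hN0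
  have hk0 : 0 ≤ k := by rw [hk]; positivity
  obtain ⟨hθ0, ha0, ha1, hNθ, hNθ2, hc1, hc2⟩ := coef hN hk0 hL1 hkL hL2 rfl rfl
  rw [gram h1 h2 h3]
  generalize (1 - k / L) = a at *
  generalize (1 / L) = θ at *
  have hB : ‖B‖ ≤ Real.sqrt N := norm_le_sqrt hN0 h1
  have hCn : ‖C‖ ≤ k := by rw [hk]; exact norm_le_card hC
  have hCt : ‖Cᵀ‖ ≤ k := by rw [norm_transpose']; exact hCn
  have haθ : |a * θ| ≤ θ := by
    rw [abs_of_nonneg (by positivity)]
    exact mul_le_of_le_one_left hθ0.le ha1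
  have n1 : ‖((a ^ 2 - 1) * N) • (1 : Matrix G G ℝ)‖ ≤ 2 * (k * θ) * N := by
    rw [norm_smul, Real.norm_eq_abs]
    calc _ ≤ (2 * (k * θ) * N) * 1 := mul_le_mul hc1 norm_one_le (norm_nonneg _) (by positivity)
      _ = _ := mul_one _
  have n2 : ‖(θ ^ 2 * N - a ^ 2) • (B * Bᵀ)‖ ≤ (4 * k + 2) * θ * N := by
    rw [norm_smul, Real.norm_eq_abs]
    have h6 : ‖B * Bᵀ‖ ≤ N := by
      rw [norm_mul_transpose]
      exact (mul_le_mul hB hB (norm_nonneg _) hs).trans (le_of_eq hss)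
    exact mul_le_mul hc2 h6 (norm_nonneg _) (by positivity)
  have n3a := n3 hN0 hk0 hB hCn haθ
  have n3b := n3 hN0 hk0 hB hCt haθ
  have n5 : ‖(θ ^ 2) • (B * (C * (Cᵀ * Bᵀ)))‖ ≤ k ^ 2 * (N * θ ^ 2) := by
    have h7 : B * (C * (Cᵀ * Bᵀ)) = B * ((C * Cᵀ) * Bᵀ) := by rw [Matrix.mul_assoc C]
    have h8 : ‖C * Cᵀ‖ ≤ k ^ 2 := by
      rw [norm_mul_transpose, sq]
      exact mul_le_mul hCn hCn (norm_nonneg _) hk0
    rw [h7]
    have h9 : |θ ^ 2| ≤ θ ^ 2 := le_of_eq (abs_of_nonneg (by positivity))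
    refine (n3 hN0 (by positivity) hB h8 h9).trans (le_of_eq (by ring))
  have htri : ∀ a b c d e : Matrix G G ℝ, ‖a + b - c - d - e‖ ≤ ‖a‖ + ‖b‖ + ‖c‖ + ‖d‖ + ‖e‖ := by
    intro a b c d e
    have t1 := norm_sub_le (a + b - c - d) e
    have t2 := norm_sub_le (a + b - c) d
    have t3 := norm_sub_le (a + b) c
    have t4 := norm_add_le a b
    linarith
  refine (htri _ _ _ _ _).trans ?_
  have e2 : (8 * k + 2) * (N * θ) ≤ (8 * k + 2) * Real.sqrt N :=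
    mul_le_mul_of_nonneg_left hNθ (by positivity)
  have e3 : k ^ 2 * (N * θ ^ 2) ≤ k ^ 2 * 1 := mul_le_mul_of_nonneg_left hNθ2 (by positivity)
  have e1 : 2 * (k * θ) * N + (4 * k + 2) * θ * N + k * θ * N + k * θ * N =
      (8 * k + 2) * (N * θ) := by ring
  linarith

end Blocks

section Flip

variable {G K : Type*} [Fintype G] [DecidableEq G] [Fintype K] [DecidableEq K] [AddCommGroup G]

theorem flip {A : Matrix G G ℝ} {B : Matrix G K ℝ} {D : Matrix K G ℝ}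
    (hA : ∀ i j, A i j = 1 ∨ A i j = -1) (hB : ∀ i j, B i j = 1 ∨ B i j = -1)
    (hD : ∀ i j, D i j = 1 ∨ D i j = -1) (r : ℕ) (hr : 0 < r) {k L R : ℝ}
    (hk : k = Fintype.card K) (hL : L = Fintype.card K + r) (hR1 : 1 ≤ R)
    (hR : Fintype.card G * (2 * k / L) ≤ R) (s : ℕ) :
    ∃ A' : Matrix G G ℝ, (∀ i j, A' i j = 1 ∨ A' i j = -1) ∧
      ‖A' - ((1 - k / L) • A + (1 / L) • (B * D))‖ ^ (2 * 2 ^ (s + 1)) ≤
        Fintype.card G * (4 ^ 2 * ((2 : ℝ) ^ (s + 1)) ^ 2 * R) ^ (2 ^ (s + 1)) := by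
  classical
  have hr0 : (0 : ℝ) < r := by exact_mod_cast hr
  have hk0 : 0 ≤ k := by rw [hk]; positivity
  have hL0 : 0 < L := by rw [hL]; positivity
  have hkL : k / L ≤ 1 := by
    rw [div_le_one hL0, hk, hL]
    linarith
  have hkL0 : 0 ≤ k / L := by positivity
  haveI : Nonempty (K ⊕ Fin r) := ⟨Sum.inr ⟨0, hr⟩⟩
  have hcard : (Fintype.card (K ⊕ Fin r) : ℝ) = L := by
    rw [Fintype.card_sum, Fintype.card_fin, hL]
    push_cast
    rfl
  let d : K → G → G → ℝ := fun l i j => B i l * D l j - A i j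
  let e : K ⊕ Fin r → G → G → ℝ := fun c i j => Sum.elim (fun l => d l i j) (fun _ => 0) c
  let μ : G → G → ℝ := fun i j => (1 / L) * ∑ l, d l i j
  let Z : G → K ⊕ Fin r → Matrix G G ℝ := fun g c =>
    Matrix.of fun i j => if j - i = g then e c i j - μ i j else 0
  have hd : ∀ l i j, |d l i j| ≤ 2 := by
    intro l i j
    simp only [d]
    rcases hA i j with h1 | h1 <;> rcases hB i l with h2 | h2 <;> rcases hD l j with h3 | h3 <;>
      rw [h1, h2, h3] <;> norm_num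
  have hμ : ∀ i j, |μ i j| ≤ 2 * (k / L) := by
    intro i j
    simp only [μ]
    rw [abs_mul, abs_of_pos (by positivity : 0 < 1 / L)]
    have h1 : |∑ l, d l i j| ≤ k * 2 := by
      refine (Finset.abs_sum_le_sum_abs _ _).trans ?_
      refine (Finset.sum_le_card_nsmul _ _ 2 (fun l _ => hd l i j)).trans ?_
      rw [nsmul_eq_mul, Finset.card_univ, hk]
    calc 1 / L * |∑ l, d l i j| ≤ 1 / L * (k * 2) := mul_le_mul_of_nonneg_left h1 (by positivity)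
      _ = _ := by ring
  have hZ0 : ∀ g, ∑ c, Z g c = 0 := by
    intro g
    ext i j
    rw [Matrix.sum_apply, Matrix.zero_apply]
    simp only [Z, Matrix.of_apply]
    by_cases hg : j - i = g
    · simp only [hg, if_true]
      rw [Finset.sum_sub_distrib, Finset.sum_const, Finset.card_univ, nsmul_eq_mul, hcard,
        Fintype.sum_sum_type]
      simp only [e, Sum.elim_inl, Sum.elim_inr, Finset.sum_const_zero, add_zero, μ]
      field_simp
      ring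
    · simp only [hg, if_false, Finset.sum_const_zero]
  let w : K ⊕ Fin r → ℝ := Sum.elim (fun _ => 1) (fun _ => k / L)
  have hw0 : ∀ c, 0 ≤ w c := by
    rintro (c | c)
    · exact zero_le_one
    · exact hkL0
  have hw1 : ∀ c, w c ≤ 1 := by
    rintro (c | c)
    · exact le_rfl
    · exact hkL
  have hZw : ∀ g c, ‖Z g c‖ ≤ 4 * w c := by
    rintro g (c | c)
    · refine norm_shift_le g (Matrix.of fun i j => e (Sum.inl c) i j - μ i j) ?_ (fun i j => ?_)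
      · simp only [w, Sum.elim_inl]; norm_num
      · simp only [w, Sum.elim_inl, Matrix.of_apply, e]
        have h1 := abs_sub (d c i j) (μ i j)
        have h2 := hd c i j
        have h3 := hμ i j
        linarith
    · refine norm_shift_le g (Matrix.of fun i j => e (Sum.inr c) i j - μ i j) ?_ (fun i j => ?_)
      · simp only [w, Sum.elim_inr]; positivity
      · simp only [w, Sum.elim_inr, Matrix.of_apply, e, zero_sub, abs_neg]
        have h3 := hμ i j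
        linarith
  have hw : ∑ c, w c ≤ 2 * k / L * Fintype.card (K ⊕ Fin r) := by
    rw [hcard, Fintype.sum_sum_type]
    simp only [w, Sum.elim_inl, Sum.elim_inr, Finset.sum_const, Finset.card_univ, Fintype.card_fin,
      nsmul_eq_mul, mul_one]
    rw [← hk, div_mul_cancel₀ _ hL0.ne']
    have : (r : ℝ) * (k / L) ≤ k := by
      rw [mul_div_assoc', div_le_iff₀ hL0, mul_comm (r : ℝ) k]
      refine mul_le_mul_of_nonneg_left ?_ hk0
      rw [hL]
      have : (0 : ℝ) ≤ Fintype.card K := Nat.cast_nonneg _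
      linarith
    linarith
  obtain ⟨ω, hω⟩ := moment Z hZ0 w hw0 hw1 (by norm_num : (0 : ℝ) ≤ 4) hZw
    (by positivity : 0 ≤ 2 * k / L) hw hR1 hR s
  have hsum : ∀ i j, (∑ g, Z g (ω g)) i j = e (ω (j - i)) i j - μ i j := by
    intro i j
    rw [Matrix.sum_apply]
    simp only [Z, Matrix.of_apply]
    rw [Finset.sum_ite_eq Finset.univ (j - i)]
    simp only [Finset.mem_univ, if_true]
  refine ⟨Matrix.of fun i j => A i j + e (ω (j - i)) i j, fun i j => ?_, ?_⟩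
  · simp only [Matrix.of_apply, e]
    rcases ω (j - i) with c | c
    · simp only [Sum.elim_inl, d]
      rcases hB i c with h2 | h2 <;> rcases hD c j with h3 | h3 <;> rw [h2, h3] <;> norm_num
    · simp only [Sum.elim_inr, add_zero]
      exact hA i j
  · have : (Matrix.of fun i j => A i j + e (ω (j - i)) i j) -
        ((1 - k / L) • A + (1 / L) • (B * D)) = ∑ g, Z g (ω g) := by
      ext i j
      rw [hsum]
      simp only [Matrix.sub_apply, Matrix.add_apply, Matrix.smul_apply, Matrix.of_apply,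
        Matrix.mul_apply, smul_eq_mul, μ, d, Finset.sum_sub_distrib, Finset.sum_const,
        Finset.card_univ, nsmul_eq_mul]
      rw [← hk]
      field_simp
      ring
    rw [this]
    exact hω

end Flip

end Pool.Agent.N458.AH
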