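import Pool.Agent.N458.AH.Step
import Pool.Agent.W69.MD.Iter

/-!
# Nearly orthogonal sign matrices of every order
-/

set_option autoImplicit false

namespace Pool.Agent.N458.AH

open Matrix Finset
open Pool.Agent.W851.Had (tow tow_pos main_had)
open Pool.Agent.H108R3.Had (HasHad)

theorem approx : ∃ C : ℕ, 2 ≤ C ∧ ∀ j n : ℕ, 0 < n → n ≤ tow j →
    ∃ A : Matrix (Fin n) (Fin n) ℝ, (∀ i j, A i j = 1 ∨ A i j = -1) ∧
      ∀ x : EuclideanSpace ℝ (Fin n), |‖toEuclideanLin A x‖ - Real.sqrt n * ‖x‖| ≤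
        2 ^ C ^ (j + 1) * (1 + Real.log n) * Real.sqrt (Real.sqrt n) * ‖x‖ := by
  obtain ⟨C, hC, hHad⟩ := main_had
  refine ⟨8 * C, by omega, fun j n hn hnj => ?_⟩
  set t : ℕ := C ^ (j + 1) with ht
  have ht2 : 2 ≤ t := by
    calc 2 ≤ C := hC
      _ = C ^ 1 := (pow_one C).symm
      _ ≤ C ^ (j + 1) := Nat.pow_le_pow_right (by omega) (by omega)
  set q : ℕ := (n + (2 ^ t - 1)) / 2 ^ t with hq
  have h2t : 1 ≤ 2 ^ t := Nat.one_le_two_pow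
  have hqn : q ≤ n := by
    rw [hq, Nat.div_le_iff_le_mul_add_pred (by omega)]
    nlinarith
  have hq1 : n ≤ 2 ^ t * q := by
    have := Nat.div_add_mod (n + (2 ^ t - 1)) (2 ^ t)
    have h3 := Nat.mod_lt (n + (2 ^ t - 1)) (by omega : 2 ^ t > 0)
    rw [← hq] at this
    omega
  have hq2 : 2 ^ t * q ≤ n + (2 ^ t - 1) := by
    rw [hq]
    exact Nat.mul_div_le _ _
  obtain ⟨k, hk⟩ := Nat.exists_eq_add_of_le hq1
  have hkt : k + 1 ≤ 2 ^ t := by omega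
  obtain ⟨H, hH1, hH2⟩ : HasHad (n + k) := by
    rw [← hk]
    exact hHad j q t (hqn.trans hnj) le_rfl
  -- the exponent
  set a : ℕ := Nat.log 2 n + 1 with ha
  set s : ℕ := Nat.log 2 a with hs
  have hna : n < 2 ^ a := Nat.lt_pow_succ_log_self (by norm_num) n
  have has : a < 2 ^ (s + 1) := Nat.lt_pow_succ_log_self (by norm_num) a
  have has2 : 2 ^ s ≤ a := Nat.pow_log_le_self 2 (by omega)
  have hns : n ≤ 4 ^ 2 ^ (s + 1) := by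
    calc n ≤ 2 ^ a := hna.le
      _ ≤ 2 ^ 2 ^ (s + 1) := Nat.pow_le_pow_right (by norm_num) has.le
      _ ≤ 4 ^ 2 ^ (s + 1) := Nat.pow_le_pow_left (by norm_num) _
  obtain ⟨A, hA, hAx⟩ := step hn hH1 hH2 s hns
  refine ⟨A, hA, fun x => (hAx x).trans (mul_le_mul_of_nonneg_right ?_ (norm_nonneg x))⟩
  have hnR : (1 : ℝ) ≤ n := by exact_mod_cast hn
  have hlog : 0 ≤ Real.log n := Real.log_nonneg hnR
  have hm : (2 : ℝ) ^ (s + 1) ≤ 3 * (1 + Real.log n) := by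
    have h3 : (2 : ℝ) ^ s ≤ a := by exact_mod_cast has2
    have h4 : ((Nat.log 2 n : ℕ) : ℝ) * Real.log 2 ≤ Real.log n := by
      rw [← Real.log_pow]
      apply Real.log_le_log (by positivity)
      exact_mod_cast Nat.pow_log_le_self 2 (by omega)
    have h5 : (0.69 : ℝ) ≤ Real.log 2 := by have := Real.log_two_gt_d9; linarith
    have h6 : (0 : ℝ) ≤ ((Nat.log 2 n : ℕ) : ℝ) := Nat.cast_nonneg _
    have h7 : (a : ℝ) = ((Nat.log 2 n : ℕ) : ℝ) + 1 := by rw [ha]; push_cast; rfl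
    rw [pow_succ]
    nlinarith
  have hss : 1 ≤ Real.sqrt (Real.sqrt n) := Real.one_le_sqrt.2 (Real.one_le_sqrt.2 hnR)
  set S : ℝ := Real.sqrt (Real.sqrt n) with hS
  set ℓ : ℝ := 1 + Real.log n with hℓ
  have hℓ1 : 1 ≤ ℓ := by linarith
  have hk0 : (0 : ℝ) ≤ k := Nat.cast_nonneg k
  have hkt' : (k : ℝ) + 1 ≤ 2 ^ t := by exact_mod_cast hkt
  have hlS : 1 ≤ ℓ * S := by nlinarith
  have hexp : (2 : ℝ) ^ (2 * t + 6) ≤ 2 ^ (8 * C) ^ (j + 1) := by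
    apply pow_le_pow_right₀ (by norm_num)
    rw [mul_pow, ← ht]
    have : 8 ≤ 8 ^ (j + 1) := by
      calc 8 = 8 ^ 1 := (pow_one 8).symm
        _ ≤ 8 ^ (j + 1) := Nat.pow_le_pow_right (by norm_num) (by omega)
    nlinarith
  have h1 : 16 * (2 : ℝ) ^ (s + 1) * (k + 1) * S ≤ 48 * (2 ^ t * 2 ^ t) * (ℓ * S) := by
    calc 16 * (2 : ℝ) ^ (s + 1) * (k + 1) * S ≤ 16 * (3 * ℓ) * (2 ^ t) * S := by
          gcongr
      _ = 48 * (2 ^ t * 1) * (ℓ * S) := by ring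
      _ ≤ 48 * (2 ^ t * 2 ^ t) * (ℓ * S) := by
          gcongr
          exact one_le_pow₀ (by norm_num)
  have h2 : (k : ℝ) ^ 2 + 9 * k + 2 ≤ 9 * (2 ^ t * 2 ^ t) * (ℓ * S) := by
    calc (k : ℝ) ^ 2 + 9 * k + 2 ≤ 9 * ((k + 1) * (k + 1)) := by nlinarith
      _ ≤ 9 * (2 ^ t * 2 ^ t) := by gcongr
      _ = 9 * (2 ^ t * 2 ^ t) * 1 := (mul_one _).symm
      _ ≤ 9 * (2 ^ t * 2 ^ t) * (ℓ * S) := by gcongr
  calc 16 * (2 : ℝ) ^ (s + 1) * (k + 1) * S + (k ^ 2 + 9 * k + 2)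
      ≤ 48 * (2 ^ t * 2 ^ t) * (ℓ * S) + 9 * (2 ^ t * 2 ^ t) * (ℓ * S) := add_le_add h1 h2
    _ = 57 * (2 ^ t * 2 ^ t) * (ℓ * S) := by ring
    _ ≤ 64 * (2 ^ t * 2 ^ t) * (ℓ * S) := by
        gcongr
        norm_num
    _ = 2 ^ (2 * t + 6) * (ℓ * S) := by
        have h64 : (2 : ℝ) ^ (2 * t + 6) = 64 * (2 ^ t * 2 ^ t) := by ring
        rw [h64]
    _ ≤ 2 ^ (8 * C) ^ (j + 1) * (ℓ * S) := by gcongr
    _ = 2 ^ (8 * C) ^ (j + 1) * ℓ * S := (mul_assoc _ _ _).symm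

/-- every iterated logarithm -/
theorem approx_log (r : ℕ) : ∃ n₀ : ℕ, ∀ n : ℕ, n₀ ≤ n → 1 ≤ Real.log^[r] (n : ℝ) ∧
    ∃ A : Matrix (Fin n) (Fin n) ℝ, (∀ i j, A i j = 1 ∨ A i j = -1) ∧
      ∀ x : EuclideanSpace ℝ (Fin n), |‖toEuclideanLin A x‖ - Real.sqrt n * ‖x‖| ≤
        (n : ℝ) ^ (1 / 4 : ℝ) * Real.log n * Real.log^[r] (n : ℝ) * ‖x‖ := by
  obtain ⟨C, hC, h⟩ := approx
  obtain ⟨a₀, ha₀⟩ := Pool.Agent.W69.MD.exp_le_tow C (2 * r + 2) hC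
  refine ⟨tow (a₀ + 2 * r) + 3, fun n hn => ?_⟩
  have hn0 : 0 < n := by omega
  have hex : ∃ k, n ≤ tow k := ⟨n, (Pool.Agent.W69.MD.lt_tow n).le⟩
  obtain ⟨k, hk1, hk2⟩ : ∃ k, n ≤ tow k ∧ ∀ i < k, tow i < n :=
    ⟨Nat.find hex, Nat.find_spec hex, fun i hi => not_le.1 (Nat.find_min hex hi)⟩
  have hka : a₀ + 2 * r < k := by
    by_contra hcon
    push Not at hcon
    have := hk1.trans (Pool.Agent.W69.MD.tow_mono hcon)
    omega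
  obtain ⟨a, ha⟩ : ∃ a, k = a + 2 * r + 1 := ⟨k - (2 * r + 1), by omega⟩
  have haa : a₀ ≤ a := by omega
  have h1 : (tow (a + 2 * r) : ℝ) ≤ n := by
    exact_mod_cast (hk2 (a + 2 * r) (by omega)).le
  have h2 := Pool.Agent.W69.MD.iter_log_tow r a n h1
  have h3 := ha₀ a haa
  have h4 : (1 : ℝ) ≤ Real.log^[r] (n : ℝ) := by
    refine le_trans ?_ h2
    exact_mod_cast tow_pos a
  refine ⟨h4, ?_⟩
  obtain ⟨A, hA, hAx⟩ := h k n hn0 hk1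
  refine ⟨A, hA, fun x => (hAx x).trans (mul_le_mul_of_nonneg_right ?_ (norm_nonneg x))⟩
  have hnR : (3 : ℝ) ≤ n := by exact_mod_cast (by omega : 3 ≤ n)
  have hlog : 1 ≤ Real.log n := by
    rw [Real.le_log_iff_exp_le (by linarith)]
    have := Real.exp_one_lt_d9
    linarith
  have hroot : Real.sqrt (Real.sqrt n) = (n : ℝ) ^ (1 / 4 : ℝ) := by
    rw [Real.sqrt_eq_rpow, Real.sqrt_eq_rpow, ← Real.rpow_mul (by linarith)]
    norm_num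
  have hpow : 2 * (2 : ℝ) ^ C ^ (k + 1) ≤ Real.log^[r] (n : ℝ) := by
    refine le_trans ?_ (h3.trans h2)
    have e1 : k + 1 = a + (2 * r + 2) := by omega
    rw [e1]
    have := Real.add_one_le_exp (2 * (2 : ℝ) ^ C ^ (a + (2 * r + 2)))
    linarith
  rw [hroot]
  have hn4 : (0 : ℝ) ≤ (n : ℝ) ^ (1 / 4 : ℝ) := by positivity
  have hP : (0 : ℝ) ≤ 2 ^ C ^ (k + 1) := by positivity
  calc (2 : ℝ) ^ C ^ (k + 1) * (1 + Real.log n) * (n : ℝ) ^ (1 / 4 : ℝ)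
      ≤ 2 ^ C ^ (k + 1) * (2 * Real.log n) * (n : ℝ) ^ (1 / 4 : ℝ) := by
        gcongr
        linarith
    _ = (n : ℝ) ^ (1 / 4 : ℝ) * Real.log n * (2 * 2 ^ C ^ (k + 1)) := by ring
    _ ≤ _ := by gcongr

end Pool.Agent.N458.AH
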