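import Mathlib

/-!
# Moments of sums of independent random matrices

A finite, elementary version of the moment method.
-/

set_option autoImplicit false

namespace Pool.Agent.N458.AH

open Matrix Finset
open scoped Matrix.Norms.L2Operator

/-- ordered product of a finite family in a monoid -/
def pr {R : Type*} [Monoid R] : (N : ℕ) → (Fin N → R) → R
  | 0, _ => 1
  | N + 1, y => y 0 * pr N (fun i => y i.succ)

theorem pr_sum {R G : Type*} [Semiring R] [Fintype G] : ∀ (N : ℕ) (y : Fin N → G → R),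
    pr N (fun i => ∑ g, y i g) = ∑ f : Fin N → G, pr N (fun i => y i (f i)) := by
  intro N
  induction N with
  | zero => intro y; simp [pr]
  | succ N ih =>
    intro y
    rw [← (Fin.consEquiv (fun _ => G)).sum_comp, Fintype.sum_prod_type]
    simp only [pr]
    rw [ih (fun i => y i.succ), Finset.sum_mul_sum]
    rfl

theorem pr_sum' {R : Type*} [Semiring R] {M : Type*} [AddCommMonoid M] (φ : R →+ M) {Ω G : Type*}
    [Fintype G] [Fintype Ω] (N : ℕ) (y : Fin N → Ω → G → R) :
    ∑ ω, φ (pr N (fun i => ∑ g, y i ω g)) =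
      ∑ f : Fin N → G, φ (∑ ω, pr N (fun i => y i ω (f i))) := by
  simp only [pr_sum, map_sum]
  rw [Finset.sum_comm]

/-- the product does not see the coordinates outside the range of `f` -/
theorem pr_indep {R G κ : Type*} [Monoid R] [DecidableEq G] : ∀ (N : ℕ) (y : Fin N → G → κ → R)
    (f : Fin N → G) (ω : G → κ) (g : G), (∀ i, f i ≠ g) → ∀ c,
      pr N (fun i => y i (f i) (Function.update ω g c (f i))) =
        pr N (fun i => y i (f i) (ω (f i))) := by
  intro N y f ω g h c
  congr 1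
  funext i
  rw [Function.update_of_ne (h i)]

/-- a coordinate which occurs exactly once occurs linearly -/
theorem pr_single {R G κ : Type*} [Monoid R] [DecidableEq G] : ∀ (N : ℕ) (y : Fin N → G → κ → R)
    (f : Fin N → G) (ω : G → κ) (i₀ : Fin N), (∀ i, i ≠ i₀ → f i ≠ f i₀) → ∃ A B : R, ∀ c,
      pr N (fun i => y i (f i) (Function.update ω (f i₀) c (f i))) = A * y i₀ (f i₀) c * B := by
  intro N
  induction N with
  | zero => intro y f ω i₀; exact i₀.elim0
  | succ N ih =>
    intro y f ω i₀ h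
    rcases Fin.eq_zero_or_eq_succ i₀ with rfl | ⟨j, rfl⟩
    · refine ⟨1, pr N (fun i => y i.succ (f i.succ) (ω (f i.succ))), fun c => ?_⟩
      simp only [pr]
      rw [Function.update_self, one_mul]
      congr 1
      exact pr_indep N (fun i => y i.succ) (fun i => f i.succ) ω (f 0)
        (fun i => h _ (Fin.succ_ne_zero i)) c
    · obtain ⟨A, B, hAB⟩ := ih (fun i => y i.succ) (fun i => f i.succ) ω j
        (fun i hi => h _ (fun h' => hi (Fin.succ_injective _ h')))
      refine ⟨y 0 (f 0) (ω (f 0)) * A, B, fun c => ?_⟩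
      simp only [pr]
      rw [hAB c, Function.update_of_ne (h 0 (Fin.succ_ne_zero j).symm)]
      simp only [mul_assoc]

/-- tuples with a value taken exactly once do not contribute -/
theorem sum_pr_eq_zero {R G κ : Type*} [Ring R] [Fintype G] [DecidableEq G] [Fintype κ]
    (N : ℕ) (y : Fin N → G → κ → R) (h0 : ∀ i g, ∑ c, y i g c = 0)
    (f : Fin N → G) (i₀ : Fin N) (h : ∀ i, i ≠ i₀ → f i ≠ f i₀) :
    ∑ ω : G → κ, pr N (fun i => y i (f i) (ω (f i))) = 0 := by
  classical
  rw [← (Equiv.funSplitAt (f i₀) κ).symm.sum_comp, Fintype.sum_prod_type_right]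
  refine Finset.sum_eq_zero fun ω' _ => ?_
  rcases isEmpty_or_nonempty κ with hκ | ⟨⟨c₀⟩⟩
  · simp
  obtain ⟨A, B, hAB⟩ := pr_single N y f ((Equiv.funSplitAt (f i₀) κ).symm (c₀, ω')) i₀ h
  have h1 : ∀ c, (Equiv.funSplitAt (f i₀) κ).symm (c, ω') =
      Function.update ((Equiv.funSplitAt (f i₀) κ).symm (c₀, ω')) (f i₀) c := by
    intro c
    funext g
    by_cases hg : g = f i₀
    · subst hg
      rw [Function.update_self]
      simp [Equiv.funSplitAt, Equiv.piSplitAt]
    · rw [Function.update_of_ne hg]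
      simp [Equiv.funSplitAt, Equiv.piSplitAt, hg]
  rw [Finset.sum_congr rfl (fun c _ => (congrArg (fun ω : G → κ =>
    pr N (fun i => y i (f i) (ω (f i)))) (h1 c)).trans (hAB c))]
  rw [← Finset.sum_mul, ← Finset.mul_sum, h0, mul_zero, zero_mul]

variable {ι : Type*} [Fintype ι] [DecidableEq ι]

theorem norm_one_le : ‖(1 : Matrix ι ι ℝ)‖ ≤ 1 := by
  rw [← Matrix.diagonal_one, Matrix.l2_opNorm_diagonal]
  exact (pi_norm_le_iff_of_nonneg zero_le_one).2 (fun i => by simp)

theorem norm_pr_le : ∀ (N : ℕ) (y : Fin N → Matrix ι ι ℝ), ‖pr N y‖ ≤ ∏ i, ‖y i‖ := by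
  intro N
  induction N with
  | zero => intro y; simpa [pr] using norm_one_le
  | succ N ih =>
    intro y
    rw [Fin.prod_univ_succ]
    simp only [pr]
    exact (norm_mul_le _ _).trans (mul_le_mul_of_nonneg_left (ih _) (norm_nonneg _))

theorem abs_entry_le (A : Matrix ι ι ℝ) (i j : ι) : |A i j| ≤ ‖A‖ := by
  have h := Matrix.l2_opNorm_mulVec A (EuclideanSpace.single j (1 : ℝ))
  rw [PiLp.norm_single, norm_one, mul_one] at h
  refine le_trans ?_ h
  have h3 : A i j = ((EuclideanSpace.equiv ι ℝ).symm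
    (A *ᵥ (EuclideanSpace.single j (1 : ℝ)).ofLp)) i := by
    simp
  rw [h3, ← Real.norm_eq_abs]
  exact PiLp.norm_apply_le _ i

theorem abs_trace_le (A : Matrix ι ι ℝ) : |A.trace| ≤ Fintype.card ι * ‖A‖ := by
  unfold Matrix.trace
  refine (Finset.abs_sum_le_sum_abs _ _).trans ?_
  refine (Finset.sum_le_card_nsmul _ _ ‖A‖ (fun i _ => abs_entry_le A i i)).trans ?_
  rw [nsmul_eq_mul, Finset.card_univ]

section Count

variable {G κ : Type*} [Fintype G] [DecidableEq G] [Fintype κ]

/-- the sum of a product over independent coordinates -/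
theorem sum_prod_le (w : κ → ℝ) (hw0 : ∀ c, 0 ≤ w c) {p : ℝ} (hp : ∑ c, w c ≤ p * Fintype.card κ)
    (s : Finset G) : ∑ ω : G → κ, ∏ g ∈ s, w (ω g) ≤ p ^ s.card * (Fintype.card κ : ℝ) ^ Fintype.card G := by
  classical
  have h1 : ∀ ω : G → κ, ∏ g ∈ s, w (ω g) = ∏ g : G, (if g ∈ s then w (ω g) else 1) := by
    intro ω
    rw [Finset.prod_ite_mem, Finset.univ_inter]
  have h2 : ∑ ω : G → κ, ∏ g : G, (if g ∈ s then w (ω g) else 1) =
      ∏ g : G, ∑ c : κ, (if g ∈ s then w c else 1) := by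
    rw [Finset.prod_univ_sum, Fintype.piFinset_univ]
  have h3 : ∀ g : G, ∑ c : κ, (if g ∈ s then w c else 1) =
      if g ∈ s then ∑ c, w c else (Fintype.card κ : ℝ) := by
    intro g
    split_ifs
    · rfl
    · simp
  rw [Finset.sum_congr rfl (fun ω _ => h1 ω), h2]
  calc ∏ g : G, ∑ c : κ, (if g ∈ s then w c else 1)
      = ∏ g : G, (if g ∈ s then ∑ c, w c else (Fintype.card κ : ℝ)) :=
        Finset.prod_congr rfl (fun g _ => h3 g)
    _ ≤ ∏ g : G, ((if g ∈ s then p else 1) * (Fintype.card κ : ℝ)) := by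
        refine Finset.prod_le_prod (fun g _ => ?_) (fun g _ => ?_)
        · split_ifs
          · exact Finset.sum_nonneg (fun c _ => hw0 c)
          · positivity
        · split_ifs
          · exact hp
          · rw [one_mul]
    _ = p ^ s.card * (Fintype.card κ : ℝ) ^ Fintype.card G := by
        rw [Finset.prod_mul_distrib, Finset.prod_const, Finset.card_univ, Finset.prod_ite_mem,
          Finset.univ_inter, Finset.prod_const]

theorem prod_le_prod_image {N : ℕ} (f : Fin N → G) (v : G → ℝ) (h0 : ∀ g, 0 ≤ v g)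
    (h1 : ∀ g, v g ≤ 1) : ∏ i, v (f i) ≤ ∏ g ∈ Finset.univ.image f, v g := by
  classical
  rw [Finset.prod_comp (fun g => v g) f]
  refine Finset.prod_le_prod (fun g _ => pow_nonneg (h0 g) _) (fun g hg => ?_)
  obtain ⟨i, _, rfl⟩ := Finset.mem_image.1 hg
  refine pow_le_of_le_one (h0 _) (h1 _) ?_
  have : i ∈ Finset.univ.filter (fun a => f a = f i) := by simp
  exact (Finset.card_pos.2 ⟨i, this⟩).ne'

/-- every value is taken at least twice -/
def NS {N : ℕ} (f : Fin N → G) : Prop := ∀ i, ∃ j, j ≠ i ∧ f j = f i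

theorem card_image_le {m : ℕ} (f : Fin (2 * m) → G) (hf : NS f) :
    (Finset.univ.image f).card ≤ m := by
  classical
  have h1 : ∑ g ∈ Finset.univ.image f, (Finset.univ.filter (fun a => f a = g)).card = 2 * m := by
    rw [← Finset.card_eq_sum_card_image, Finset.card_univ, Fintype.card_fin]
  have h2 : ∑ g ∈ Finset.univ.image f, 2 ≤
      ∑ g ∈ Finset.univ.image f, (Finset.univ.filter (fun a => f a = g)).card := by
    refine Finset.sum_le_sum (fun g hg => ?_)
    obtain ⟨i, _, rfl⟩ := Finset.mem_image.1 hg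
    obtain ⟨j, hj, hji⟩ := hf i
    have : ({j, i} : Finset (Fin (2 * m))) ⊆ Finset.univ.filter (fun a => f a = f i) := by
      intro x hx
      rw [Finset.mem_insert, Finset.mem_singleton] at hx
      rcases hx with rfl | rfl <;> simp [hji]
    calc 2 = ({j, i} : Finset (Fin (2 * m))).card := (Finset.card_pair hj).symm
      _ ≤ _ := Finset.card_le_card this
  rw [Finset.sum_const, smul_eq_mul, h1] at h2
  omega

theorem exists_code {m : ℕ} (f : Fin (2 * m) → G) (hf : NS f) :
    ∃ v : Fin (2 * m) → Fin m, (∀ i j, v i = v j → f i = f j) ∧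
      (Finset.univ.image v).card = (Finset.univ.image f).card := by
  classical
  have h : Fintype.card ↥(Finset.univ.image f) ≤ Fintype.card (Fin m) := by
    rw [Fintype.card_coe, Fintype.card_fin]
    exact card_image_le f hf
  obtain ⟨e⟩ := Function.Embedding.nonempty_of_card_le h
  refine ⟨fun i => e ⟨f i, Finset.mem_image_of_mem f (Finset.mem_univ i)⟩, fun i j hij => ?_, ?_⟩
  · have := e.injective hij
    rwa [Subtype.mk.injEq] at this
  · have h1 : (Finset.univ.image (fun i => e ⟨f i, Finset.mem_image_of_mem f (Finset.mem_univ i)⟩)) =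
        (Finset.univ : Finset ↥(Finset.univ.image f)).map e := by
      ext x
      simp only [Finset.mem_image, Finset.mem_map, Finset.mem_univ, true_and]
      constructor
      · rintro ⟨i, rfl⟩
        exact ⟨_, rfl⟩
      · rintro ⟨⟨y, hy⟩, rfl⟩
        obtain ⟨i, _, rfl⟩ := Finset.mem_image.1 hy
        exact ⟨i, rfl⟩
    rw [h1, Finset.card_map, Finset.card_univ, Fintype.card_coe]

theorem card_factor {N m : ℕ} (v : Fin N → Fin m) (s : Finset (Fin N → G))
    (hs : ∀ f ∈ s, ∀ i j, v i = v j → f i = f j) :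
    s.card ≤ Fintype.card G ^ (Finset.univ.image v).card := by
  classical
  have hch : ∀ x : ↥(Finset.univ.image v), ∃ i, v i = x.1 := by
    intro x
    obtain ⟨i, _, hi⟩ := Finset.mem_image.1 x.2
    exact ⟨i, hi⟩
  choose c hc using hch
  let φ : ↥s → (↥(Finset.univ.image v) → G) := fun f x => f.1 (c x)
  have hφ : Function.Injective φ := by
    intro f f' hff
    apply Subtype.ext
    funext i
    have h1 := congrFun hff ⟨v i, Finset.mem_image_of_mem v (Finset.mem_univ i)⟩
    have h2 := hc ⟨v i, Finset.mem_image_of_mem v (Finset.mem_univ i)⟩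
    rw [hs f.1 f.2 i _ h2.symm, hs f'.1 f'.2 i _ h2.symm]
    exact h1
  have h := Fintype.card_le_of_injective φ hφ
  rwa [Fintype.card_coe, Fintype.card_fun, Fintype.card_coe] at h

theorem sum_NS_le {m : ℕ} {p R : ℝ} (hp : 0 ≤ p) (hR1 : 1 ≤ R) (hR : Fintype.card G * p ≤ R)
    (s : Finset (Fin (2 * m) → G)) (hs : ∀ f ∈ s, NS f) :
    ∑ f ∈ s, p ^ (Finset.univ.image f).card ≤ (m : ℝ) ^ (2 * m) * R ^ m := by
  classical
  have hcode : ∀ f : ↥s, ∃ v : Fin (2 * m) → Fin m, (∀ i j, v i = v j → f.1 i = f.1 j) ∧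
      (Finset.univ.image v).card = (Finset.univ.image f.1).card :=
    fun f => exists_code f.1 (hs f.1 f.2)
  choose V hV1 hV2 using hcode
  rw [← Finset.sum_coe_sort s (fun f => p ^ (Finset.univ.image f).card)]
  have h1 : ∑ f : ↥s, p ^ (Finset.univ.image f.1).card =
      ∑ v : Fin (2 * m) → Fin m, ∑ f : ↥s with V f = v, p ^ (Finset.univ.image f.1).card :=
    (Finset.sum_fiberwise _ _ _).symm
  rw [h1]
  have h2 : ∀ v : Fin (2 * m) → Fin m,
      ∑ f : ↥s with V f = v, p ^ (Finset.univ.image f.1).card ≤ R ^ m := by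
    intro v
    have h3 : ∑ f : ↥s with V f = v, p ^ (Finset.univ.image f.1).card =
        ∑ f : ↥s with V f = v, p ^ (Finset.univ.image v).card := by
      refine Finset.sum_congr rfl (fun f hf => ?_)
      rw [← hV2 f, (Finset.mem_filter.1 hf).2]
    rw [h3, Finset.sum_const, nsmul_eq_mul]
    have h4 : (Finset.univ.filter (fun f : ↥s => V f = v)).card ≤
        Fintype.card G ^ (Finset.univ.image v).card := by
      rw [← Finset.card_map (Function.Embedding.subtype _)]
      refine card_factor v _ (fun f hf i j hij => ?_)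
      obtain ⟨f', hf', rfl⟩ := Finset.mem_map.1 hf
      have h5 := (Finset.mem_filter.1 hf').2
      subst h5
      exact hV1 f' i j hij
    calc ((Finset.univ.filter (fun f : ↥s => V f = v)).card : ℝ) * p ^ (Finset.univ.image v).card
        ≤ ((Fintype.card G : ℝ) ^ (Finset.univ.image v).card) * p ^ (Finset.univ.image v).card := by
          refine mul_le_mul_of_nonneg_right ?_ (pow_nonneg hp _)
          exact_mod_cast h4
      _ = (Fintype.card G * p) ^ (Finset.univ.image v).card := (mul_pow _ _ _).symm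
      _ ≤ R ^ (Finset.univ.image v).card :=
          pow_le_pow_left₀ (mul_nonneg (Nat.cast_nonneg _) hp) hR _
      _ ≤ R ^ m := pow_le_pow_right₀ hR1 (by
          refine (Finset.card_le_univ _).trans ?_
          rw [Fintype.card_fin])
  refine (Finset.sum_le_card_nsmul _ _ _ (fun v _ => h2 v)).trans ?_
  rw [nsmul_eq_mul, Finset.card_univ, Fintype.card_fun, Fintype.card_fin, Fintype.card_fin]
  push_cast
  exact le_rfl

end Count

section Norms

variable {ι' : Type*} [Fintype ι'] [DecidableEq ι']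

theorem norm_transpose' (A : Matrix ι ι' ℝ) : ‖Aᵀ‖ = ‖A‖ := by
  rw [← Matrix.conjTranspose_eq_transpose_of_trivial, Matrix.l2_opNorm_conjTranspose]

theorem norm_mul_transpose (A : Matrix ι ι' ℝ) : ‖A * Aᵀ‖ = ‖A‖ * ‖A‖ := by
  have h := Matrix.l2_opNorm_conjTranspose_mul_self Aᵀ
  rw [Matrix.conjTranspose_eq_transpose_of_trivial, transpose_transpose, norm_transpose'] at h
  exact h

/-- the operator norm is at most the Frobenius norm -/
theorem sq_norm_le_trace (Q : Matrix ι ι' ℝ) : ‖Q‖ ^ 2 ≤ (Q * Qᵀ).trace := by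
  have htr : (Q * Qᵀ).trace = ∑ i, ∑ j, Q i j ^ 2 := by
    simp only [Matrix.trace, Matrix.diag_apply, Matrix.mul_apply, Matrix.transpose_apply, sq]
  have h0 : 0 ≤ (Q * Qᵀ).trace := by
    rw [htr]
    positivity
  have h1 : ‖Q‖ ≤ Real.sqrt ((Q * Qᵀ).trace) := by
    rw [Matrix.l2_opNorm_def]
    refine ContinuousLinearMap.opNorm_le_bound _ (Real.sqrt_nonneg _) (fun x => ?_)
    rw [← Real.sqrt_sq (norm_nonneg x), ← Real.sqrt_mul h0, EuclideanSpace.norm_eq]
    apply Real.sqrt_le_sqrt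
    rw [EuclideanSpace.norm_sq_eq, htr, Finset.sum_mul]
    refine Finset.sum_le_sum (fun i _ => ?_)
    have h2 := Finset.sum_mul_sq_le_sq_mul_sq Finset.univ (fun j => Q i j) (fun j => x.ofLp j)
    simp only [Real.norm_eq_abs, sq_abs]
    refine le_trans (le_of_eq ?_) h2
    congr 1
  calc ‖Q‖ ^ 2 ≤ Real.sqrt ((Q * Qᵀ).trace) ^ 2 := pow_le_pow_left₀ (norm_nonneg _) h1 2
    _ = _ := Real.sq_sqrt h0

/-- the moment method for exponents which are powers of two -/
theorem norm_pow_le_trace (S : Matrix ι ι ℝ) (s : ℕ) :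
    ‖S‖ ^ (2 * 2 ^ (s + 1)) ≤ ((S * Sᵀ) ^ (2 ^ (s + 1))).trace := by
  have hsa : IsSelfAdjoint (S * Sᵀ) := by
    rw [← Matrix.conjTranspose_eq_transpose_of_trivial]
    exact IsSelfAdjoint.mul_star_self S
  have h1 := hsa.norm_pow_two_pow s
  have h2 := sq_norm_le_trace ((S * Sᵀ) ^ (2 ^ s))
  have h3 : ((S * Sᵀ) ^ (2 ^ s))ᵀ = (S * Sᵀ) ^ (2 ^ s) := by
    rw [Matrix.transpose_pow, Matrix.transpose_mul, Matrix.transpose_transpose]
  rw [h3, ← pow_add, ← two_mul, ← pow_succ', h1, norm_mul_transpose] at h2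
  refine le_trans (le_of_eq ?_) h2
  rw [← sq, ← pow_mul, ← pow_mul, ← pow_succ]

end Norms

section Main

/-- alternating product -/
theorem pr_alt {R : Type*} [Monoid R] (a b : R) : ∀ m : ℕ,
    pr (2 * m) (fun i => if (i : ℕ) % 2 = 0 then a else b) = (a * b) ^ m := by
  intro m
  induction m with
  | zero => rw [pow_zero]; rfl
  | succ m ih =>
    rw [pow_succ', ← ih]
    show a * (b * _) = _
    rw [mul_assoc]
    congr 3
    funext i
    have : ((i.succ.succ : Fin (2 * m + 1 + 1)) : ℕ) % 2 = (i : ℕ) % 2 := by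
      simp only [Fin.val_succ]
      omega
    simp only [this]

variable {G κ : Type*} [Fintype G] [DecidableEq G] [Fintype κ] [Nonempty κ]

theorem moment (Z : G → κ → Matrix ι ι ℝ) (hZ : ∀ g, ∑ c, Z g c = 0) (w : κ → ℝ)
    (hw0 : ∀ c, 0 ≤ w c) (hw1 : ∀ c, w c ≤ 1) {D p R : ℝ} (hD : 0 ≤ D)
    (hZw : ∀ g c, ‖Z g c‖ ≤ D * w c) (hp0 : 0 ≤ p) (hp : ∑ c, w c ≤ p * Fintype.card κ)
    (hR1 : 1 ≤ R) (hR : Fintype.card G * p ≤ R) (s : ℕ) :
    ∃ ω : G → κ, ‖∑ g, Z g (ω g)‖ ^ (2 * 2 ^ (s + 1)) ≤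
      Fintype.card ι * (D ^ 2 * ((2 : ℝ) ^ (s + 1)) ^ 2 * R) ^ (2 ^ (s + 1)) := by
  classical
  set m : ℕ := 2 ^ (s + 1) with hm
  let Y : Fin (2 * m) → G → κ → Matrix ι ι ℝ := fun i g c => if (i : ℕ) % 2 = 0 then Z g c else (Z g c)ᵀ
  have hY0 : ∀ i g, ∑ c, Y i g c = 0 := by
    intro i g
    by_cases hi : (i : ℕ) % 2 = 0
    · simp only [Y, hi, if_true, hZ]
    · simp only [Y, hi, if_false]
      rw [← Matrix.transpose_sum, hZ, Matrix.transpose_zero]
  have hYn : ∀ i g c, ‖Y i g c‖ ≤ D * w c := by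
    intro i g c
    by_cases hi : (i : ℕ) % 2 = 0
    · simp only [Y, hi, if_true]
      exact hZw g c
    · simp only [Y, hi, if_false]
      rw [norm_transpose']
      exact hZw g c
  have hexp : ∀ ω : G → κ, (∑ g, Z g (ω g)) * (∑ g, Z g (ω g))ᵀ =
      (∑ g, Z g (ω g)) * (∑ g, Z g (ω g))ᵀ := fun _ => rfl
  have hpr : ∀ ω : G → κ, ((∑ g, Z g (ω g)) * (∑ g, Z g (ω g))ᵀ) ^ m =
      pr (2 * m) (fun i => ∑ g, Y i g (ω g)) := by
    intro ω
    rw [← pr_alt]
    congr 1
    funext i
    by_cases hi : (i : ℕ) % 2 = 0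
    · simp only [Y, hi, if_true]
    · simp only [Y, hi, if_false]
      rw [Matrix.transpose_sum]
  have hsum : ∑ ω : G → κ, (((∑ g, Z g (ω g)) * (∑ g, Z g (ω g))ᵀ) ^ m).trace =
      ∑ f : Fin (2 * m) → G, (∑ ω : G → κ, pr (2 * m) (fun i => Y i (f i) (ω (f i)))).trace := by
    have h := pr_sum' (Matrix.traceAddMonoidHom ι ℝ) (2 * m)
      (fun (i : Fin (2 * m)) (ω : G → κ) (g : G) => Y i g (ω g))
    simp only [Matrix.traceAddMonoidHom_apply] at h
    rw [← h]
    exact Finset.sum_congr rfl (fun ω _ => by rw [hpr])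
  have hterm : ∀ f : Fin (2 * m) → G,
      (∑ ω : G → κ, pr (2 * m) (fun i => Y i (f i) (ω (f i)))).trace ≤
        if NS f then (Fintype.card ι * D ^ (2 * m) * (Fintype.card κ : ℝ) ^ Fintype.card G) *
          p ^ (Finset.univ.image f).card else 0 := by
    intro f
    split_ifs with hf
    · rw [Matrix.trace_sum]
      calc ∑ ω : G → κ, (pr (2 * m) (fun i => Y i (f i) (ω (f i)))).trace
          ≤ ∑ ω : G → κ, (Fintype.card ι * D ^ (2 * m)) * ∏ g ∈ Finset.univ.image f, w (ω g) := by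
            refine Finset.sum_le_sum (fun ω _ => ?_)
            refine (le_abs_self _).trans ((abs_trace_le _).trans ?_)
            rw [mul_assoc]
            refine mul_le_mul_of_nonneg_left ?_ (Nat.cast_nonneg _)
            calc ‖pr (2 * m) (fun i => Y i (f i) (ω (f i)))‖
                ≤ ∏ i, ‖Y i (f i) (ω (f i))‖ := norm_pr_le _ _
              _ ≤ ∏ i : Fin (2 * m), (D * w (ω (f i))) :=
                  Finset.prod_le_prod (fun i _ => norm_nonneg _) (fun i _ => hYn _ _ _)
              _ = D ^ (2 * m) * ∏ i : Fin (2 * m), w (ω (f i)) := by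
                  rw [Finset.prod_mul_distrib, Finset.prod_const, Finset.card_univ,
                    Fintype.card_fin]
              _ ≤ D ^ (2 * m) * ∏ g ∈ Finset.univ.image f, w (ω g) :=
                  mul_le_mul_of_nonneg_left (prod_le_prod_image f (fun g => w (ω g))
                    (fun g => hw0 _) (fun g => hw1 _)) (by positivity)
        _ = (Fintype.card ι * D ^ (2 * m)) *
              ∑ ω : G → κ, ∏ g ∈ Finset.univ.image f, w (ω g) := (Finset.mul_sum _ _ _).symm
        _ ≤ (Fintype.card ι * D ^ (2 * m)) *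
              (p ^ (Finset.univ.image f).card * (Fintype.card κ : ℝ) ^ Fintype.card G) :=
            mul_le_mul_of_nonneg_left (sum_prod_le w hw0 hp _) (by positivity)
        _ = _ := by ring
    · unfold NS at hf
      push Not at hf
      obtain ⟨i₀, hi₀⟩ := hf
      rw [sum_pr_eq_zero (2 * m) Y hY0 f i₀ hi₀, Matrix.trace_zero]
  have htot : ∑ ω : G → κ, ‖∑ g, Z g (ω g)‖ ^ (2 * m) ≤ ∑ ω : G → κ,
      (Fintype.card ι * (D ^ 2 * ((2 : ℝ) ^ (s + 1)) ^ 2 * R) ^ m : ℝ) := by
    calc ∑ ω : G → κ, ‖∑ g, Z g (ω g)‖ ^ (2 * m)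
        ≤ ∑ ω : G → κ, (((∑ g, Z g (ω g)) * (∑ g, Z g (ω g))ᵀ) ^ m).trace :=
          Finset.sum_le_sum (fun ω _ => norm_pow_le_trace _ s)
      _ = ∑ f : Fin (2 * m) → G,
            (∑ ω : G → κ, pr (2 * m) (fun i => Y i (f i) (ω (f i)))).trace := hsum
      _ ≤ ∑ f : Fin (2 * m) → G, (if NS f then
            (Fintype.card ι * D ^ (2 * m) * (Fintype.card κ : ℝ) ^ Fintype.card G) *
              p ^ (Finset.univ.image f).card else 0) :=
          Finset.sum_le_sum (fun f _ => hterm f)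
      _ = (Fintype.card ι * D ^ (2 * m) * (Fintype.card κ : ℝ) ^ Fintype.card G) *
            ∑ f ∈ Finset.univ.filter (fun f : Fin (2 * m) → G => NS f),
              p ^ (Finset.univ.image f).card := by
          rw [← Finset.sum_filter, Finset.mul_sum]
      _ ≤ (Fintype.card ι * D ^ (2 * m) * (Fintype.card κ : ℝ) ^ Fintype.card G) *
            ((m : ℝ) ^ (2 * m) * R ^ m) :=
          mul_le_mul_of_nonneg_left (sum_NS_le hp0 hR1 hR _
            (fun f hf => (Finset.mem_filter.1 hf).2)) (by positivity)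
      _ = ∑ ω : G → κ, (Fintype.card ι * (D ^ 2 * ((2 : ℝ) ^ (s + 1)) ^ 2 * R) ^ m : ℝ) := by
          have hM : (2 : ℝ) ^ (s + 1) = (m : ℝ) := by rw [hm]; push_cast; rfl
          rw [Finset.sum_const, nsmul_eq_mul, Finset.card_univ, Fintype.card_fun, hM, mul_pow,
            mul_pow, ← pow_mul, ← pow_mul]
          push_cast
          ring
  obtain ⟨ω, _, hω⟩ := Finset.exists_le_of_sum_le Finset.univ_nonempty htot
  exact ⟨ω, hω⟩

end Main

end Pool.Agent.N458.AH
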