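import Pool.Agent.N458.AH.Flip

/-!
# Nearly orthogonal sign matrices of order `n` from a Hadamard matrix of order `n + k`
-/

set_option autoImplicit false

namespace Pool.Agent.N458.AH

open Matrix Finset
open scoped Matrix.Norms.L2Operator

theorem blocks {n k : ℕ} {H : Matrix (Fin (n + k)) (Fin (n + k)) ℤ}
    (hs : ∀ i j, H i j = 1 ∨ H i j = -1)
    (hH : H * Hᵀ = ((n + k : ℕ) : ℤ) • (1 : Matrix (Fin (n + k)) (Fin (n + k)) ℤ)) :
    ∃ (A : Matrix (Fin n) (Fin n) ℝ) (B : Matrix (Fin n) (Fin k) ℝ) (D : Matrix (Fin k) (Fin n) ℝ)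
      (C : Matrix (Fin k) (Fin k) ℝ), (∀ i j, A i j = 1 ∨ A i j = -1) ∧
      (∀ i j, B i j = 1 ∨ B i j = -1) ∧ (∀ i j, D i j = 1 ∨ D i j = -1) ∧
      (∀ i j, C i j = 1 ∨ C i j = -1) ∧
      A * Aᵀ + B * Bᵀ = ((n + k : ℕ) : ℝ) • (1 : Matrix (Fin n) (Fin n) ℝ) ∧
      A * Dᵀ + B * Cᵀ = 0 ∧
      D * Dᵀ + C * Cᵀ = ((n + k : ℕ) : ℝ) • (1 : Matrix (Fin k) (Fin k) ℝ) := by
  let e : Fin n ⊕ Fin k ≃ Fin (n + k) := finSumFinEquiv
  let M : Matrix (Fin n ⊕ Fin k) (Fin n ⊕ Fin k) ℝ := Matrix.of fun a b => (H (e a) (e b) : ℝ)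
  have hM : ∀ a b, M a b = 1 ∨ M a b = -1 := by
    intro a b
    rcases hs (e a) (e b) with h | h
    · left; simp [M, h]
    · right; simp [M, h]
  have hMM : M * Mᵀ = ((n + k : ℕ) : ℝ) • (1 : Matrix (Fin n ⊕ Fin k) (Fin n ⊕ Fin k) ℝ) := by
    ext a b
    have h1 := congrFun (congrFun hH (e a)) (e b)
    rw [Matrix.mul_apply, Matrix.smul_apply, Matrix.one_apply] at h1 ⊢
    have h2 : ∑ c, M a c * Mᵀ c b = ((∑ c, H (e a) c * Hᵀ c (e b) : ℤ) : ℝ) := by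
      push_cast
      rw [← e.sum_comp]
      rfl
    rw [h2, h1]
    by_cases hab : a = b
    · subst hab
      simp
    · have : e a ≠ e b := fun h => hab (e.injective h)
      simp [hab, this]
  have hbl := hMM
  rw [← Matrix.fromBlocks_toBlocks M, Matrix.fromBlocks_transpose, Matrix.fromBlocks_multiply,
    ← Matrix.fromBlocks_one, Matrix.fromBlocks_smul, Matrix.fromBlocks_inj] at hbl
  refine ⟨M.toBlocks₁₁, M.toBlocks₁₂, M.toBlocks₂₁, M.toBlocks₂₂, fun i j => hM _ _,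
    fun i j => hM _ _, fun i j => hM _ _, fun i j => hM _ _, hbl.1, ?_, hbl.2.2.2⟩
  rw [hbl.2.1, smul_zero]

theorem step {n k : ℕ} (hn : 0 < n) {H : Matrix (Fin (n + k)) (Fin (n + k)) ℤ}
    (hs : ∀ i j, H i j = 1 ∨ H i j = -1)
    (hH : H * Hᵀ = ((n + k : ℕ) : ℤ) • (1 : Matrix (Fin (n + k)) (Fin (n + k)) ℤ))
    (s : ℕ) (hns : n ≤ 4 ^ 2 ^ (s + 1)) :
    ∃ A : Matrix (Fin n) (Fin n) ℝ, (∀ i j, A i j = 1 ∨ A i j = -1) ∧
      ∀ x : EuclideanSpace ℝ (Fin n), |‖toEuclideanLin A x‖ - Real.sqrt n * ‖x‖| ≤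
        (16 * 2 ^ (s + 1) * (k + 1) * Real.sqrt (Real.sqrt n) + (k ^ 2 + 9 * k + 2)) * ‖x‖ := by
  obtain ⟨A, B, D, C, hA, hB, hD, hC, h1, h2, h3⟩ := blocks hs hH
  haveI : NeZero n := ⟨hn.ne'⟩
  set N : ℝ := ((n + k : ℕ) : ℝ) with hN
  have hnR : (1 : ℝ) ≤ n := by exact_mod_cast hn
  have hk0 : (0 : ℝ) ≤ k := Nat.cast_nonneg k
  have hNk : N = n + k := by rw [hN]; push_cast; rfl
  have hN1 : 1 ≤ N := by rw [hNk]; linarith
  have hN0 : 0 < N := by linarith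
  have hsN : 0 < Real.sqrt N := Real.sqrt_pos.2 hN0
  have hsn : Real.sqrt n ≤ Real.sqrt N := Real.sqrt_le_sqrt (by rw [hNk]; linarith)
  have hsn1 : 1 ≤ Real.sqrt n := Real.one_le_sqrt.2 hnR
  have hsN1 : 1 ≤ Real.sqrt N := hsn1.trans hsn
  set r : ℕ := ⌈Real.sqrt N⌉₊ with hr
  have hr1 : Real.sqrt N ≤ r := Nat.le_ceil _
  have hr2 : (r : ℝ) < Real.sqrt N + 1 := Nat.ceil_lt_add_one hsN.le
  have hr0 : 0 < r := by
    have : (0 : ℝ) < r := lt_of_lt_of_le hsN hr1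
    exact_mod_cast this
  set L : ℝ := k + r with hL
  have hL1 : Real.sqrt N ≤ L := by linarith
  have hL0 : 0 < L := by linarith
  have hkL : (k : ℝ) ≤ L := by linarith
  have hL2 : L ≤ Real.sqrt N + 1 + k := by linarith
  set R : ℝ := 2 * (k + 1) * Real.sqrt n with hR
  have hR1 : 1 ≤ R := by nlinarith
  have hRG : (Fintype.card (Fin n) : ℝ) * (2 * k / L) ≤ R := by
    rw [Fintype.card_fin, mul_div_assoc', div_le_iff₀ hL0, hR]
    have h5 : (n : ℝ) = Real.sqrt n * Real.sqrt n := (Real.mul_self_sqrt (by linarith)).symm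
    have h6 : (n : ℝ) ≤ Real.sqrt n * L := by
      calc (n : ℝ) = Real.sqrt n * Real.sqrt n := h5
        _ ≤ Real.sqrt n * L := mul_le_mul_of_nonneg_left (hsn.trans hL1) (by linarith)
    calc (n : ℝ) * (2 * k) ≤ (Real.sqrt n * L) * (2 * k) :=
          mul_le_mul_of_nonneg_right h6 (by linarith)
      _ ≤ (Real.sqrt n * L) * (2 * (k + 1)) :=
          mul_le_mul_of_nonneg_left (by linarith) (by positivity)
      _ = _ := by ring
  obtain ⟨A', hA', hclose⟩ := flip hA hB hD r hr0 (k := (k : ℝ)) (L := L) (R := R)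
    (by rw [Fintype.card_fin]) (by rw [hL, Fintype.card_fin]) hR1 hRG s
  set F : Matrix (Fin n) (Fin n) ℝ := (1 - k / L) • A + (1 / L) • (B * D) with hF
  have hCle : ∀ i j, |C i j| ≤ 1 := by
    intro i j
    rcases hC i j with h | h <;> rw [h] <;> norm_num
  have hgram := gram_bound hN1 h1 h2 h3 hCle (L := L) (k := (k : ℝ)) (by rw [Fintype.card_fin])
    hL1 hkL hL2
  rw [← hF] at hgram
  set m : ℕ := 2 ^ (s + 1) with hm
  have hm2 : ((2 : ℝ) ^ (s + 1)) = (m : ℝ) := by rw [hm]; push_cast; rfl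
  have hm0 : 0 < m := by rw [hm]; positivity
  rw [hm2] at hclose
  have hErr : ‖A' - F‖ ≤ 8 * m * Real.sqrt R := by
    have h5 : ‖A' - F‖ ^ (2 * m) ≤ (8 * m * Real.sqrt R) ^ (2 * m) := by
      refine hclose.trans ?_
      have h6 : (Fintype.card (Fin n) : ℝ) ≤ 4 ^ m := by
        rw [Fintype.card_fin]
        exact_mod_cast hns
      calc (Fintype.card (Fin n) : ℝ) * (4 ^ 2 * (m : ℝ) ^ 2 * R) ^ m
          ≤ 4 ^ m * (4 ^ 2 * (m : ℝ) ^ 2 * R) ^ m := mul_le_mul_of_nonneg_right h6 (by positivity)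
        _ = (8 * m * Real.sqrt R) ^ (2 * m) := by
            rw [← mul_pow, pow_mul, mul_pow (8 * (m : ℝ)), Real.sq_sqrt (by linarith)]
            congr 1
            ring
    exact (pow_le_pow_iff_left₀ (norm_nonneg _) (by positivity) (by omega)).1 h5
  have hsR : Real.sqrt R ≤ 2 * (k + 1) * Real.sqrt (Real.sqrt n) := by
    rw [hR, Real.sqrt_mul (by positivity)]
    refine mul_le_mul_of_nonneg_right ?_ (Real.sqrt_nonneg _)
    rw [Real.sqrt_le_left (by positivity)]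
    nlinarith
  refine ⟨A'ᵀ, fun i j => hA' j i, fun x => ?_⟩
  have e1 : |‖toEuclideanLin A'ᵀ x‖ - ‖toEuclideanLin Fᵀ x‖| ≤ ‖A' - F‖ * ‖x‖ := by
    refine (abs_norm_sub_norm_le _ _).trans ?_
    have h5 : toEuclideanLin A'ᵀ x - toEuclideanLin Fᵀ x = toEuclideanLin (A' - F)ᵀ x := by
      rw [Matrix.transpose_sub, map_sub, LinearMap.sub_apply]
    rw [h5, ← norm_transpose' (A' - F)]
    exact norm_ev_le _ _
  have e2 := near hN0 hgram x
  have e3 : ((8 * k + 2) * Real.sqrt N + k ^ 2) / Real.sqrt N ≤ k ^ 2 + 8 * k + 2 := by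
    rw [div_le_iff₀ hsN]
    nlinarith [sq_nonneg (k : ℝ)]
  have e4 : |Real.sqrt N * ‖x‖ - Real.sqrt n * ‖x‖| ≤ k * ‖x‖ := by
    rw [← sub_mul, abs_mul, abs_of_nonneg (norm_nonneg x)]
    refine mul_le_mul_of_nonneg_right ?_ (norm_nonneg x)
    rw [abs_of_nonneg (by linarith)]
    have h5 : Real.sqrt N * Real.sqrt N = N := Real.mul_self_sqrt hN0.le
    have h6 : Real.sqrt n * Real.sqrt n = n := Real.mul_self_sqrt (by linarith)
    nlinarith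
  have e5 : |‖toEuclideanLin A'ᵀ x‖ - Real.sqrt n * ‖x‖| ≤
      |‖toEuclideanLin A'ᵀ x‖ - ‖toEuclideanLin Fᵀ x‖| +
      |‖toEuclideanLin Fᵀ x‖ - Real.sqrt N * ‖x‖| + |Real.sqrt N * ‖x‖ - Real.sqrt n * ‖x‖| := by
    have t1 := abs_sub_le (‖toEuclideanLin A'ᵀ x‖) (‖toEuclideanLin Fᵀ x‖) (Real.sqrt n * ‖x‖)
    have t2 := abs_sub_le (‖toEuclideanLin Fᵀ x‖) (Real.sqrt N * ‖x‖) (Real.sqrt n * ‖x‖)
    linarith
  have hx := norm_nonneg x
  have e6 : ‖A' - F‖ * ‖x‖ ≤ (8 * m * (2 * (k + 1) * Real.sqrt (Real.sqrt n))) * ‖x‖ :=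
    mul_le_mul_of_nonneg_right (hErr.trans (mul_le_mul_of_nonneg_left hsR (by positivity))) hx
  have e7 : ((8 * k + 2) * Real.sqrt N + k ^ 2) / Real.sqrt N * ‖x‖ ≤ (k ^ 2 + 8 * k + 2) * ‖x‖ :=
    mul_le_mul_of_nonneg_right e3 hx
  rw [hm2]
  calc |‖toEuclideanLin A'ᵀ x‖ - Real.sqrt n * ‖x‖| ≤ _ := e5
    _ ≤ (8 * m * (2 * (k + 1) * Real.sqrt (Real.sqrt n))) * ‖x‖ + (k ^ 2 + 8 * k + 2) * ‖x‖ +
        k * ‖x‖ := by linarith
    _ = _ := by ring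

end Pool.Agent.N458.AH
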